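import Pool.Agent.H448R3.Near2

set_option autoImplicit false

/-! The construction of a coarsely similar sequence which avoids countably many upper cones of the
Turing degrees. The construction is that of `Pool.Agent.H448R3.Near2`, with all pairs of a cone and
a functional in one list. -/

namespace Pool.Agent.Y355.CO

open Pool.Agent.H448R3 Pool.Agent.Helper743

/-- The main construction, for countably many cones at once; the approximations may depend on the
cone. -/
theorem exists_avoid_all (c : ℕ → ℕ → ℕ) (b : ℕ → Bool)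
    (H : ∀ i N, ∃ (x : ℕ → Bool) (m0 : ℕ), ¬ TR (c i) (fun j => bit (x j)) ∧
      ∀ m, m0 ≤ m → er (fun j => bit (x j)) (fun j => bit (b j)) m * N ≤ m) :
    ∃ z : ℕ → Bool, (∀ i, ¬ TR (c i) (fun j => bit (z j))) ∧
      ∀ N, ∃ m0, ∀ m, m0 ≤ m → er (fun j => bit (z j)) (fun j => bit (b j)) m * N ≤ m := by
  classical
  set a : ℕ → ℕ := fun j => bit (b j) with ha
  have hab : ∀ j, a j = bit (b j) := fun j => rfl
  obtain ⟨en, hen⟩ := exists_enum
  let St : ℕ → Type := fun k => {σ : List Bool // er (tf σ) a σ.length * (5 * 5 ^ k) ≤ σ.length}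
  have hstep : ∀ (k : ℕ) (s : St k), ∃ s' : St (k + 1), s.1 <+: s'.1 ∧ s.1.length < s'.1.length ∧
      Close a (5 ^ k) s'.1 s.1.length ∧
      (Computable₂ (en k.unpair.2) → Mono (en k.unpair.2) →
        Wrong (en k.unpair.2) (c k.unpair.1) s'.1 ∨
        (Close a (5 * 5 ^ k) s'.1 s.1.length ∧
          ∃ i, ∀ τ, s.1 <+: τ → Close a (5 * 5 ^ k) τ s.1.length →
            (en k.unpair.2) (τ.map bit) i = none)) := by
    rintro k ⟨σ, hσ⟩
    obtain ⟨σ', h1, h2, h3, h4, h5⟩ := step (c k.unpair.1) a b hab (H k.unpair.1)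
      (en k.unpair.2) (5 ^ k) σ hσ
    refine ⟨⟨σ', ?_⟩, h1, h2, h3, h5⟩
    have : 5 * 5 ^ (k + 1) = 5 * (5 * 5 ^ k) := by ring
    rw [this]; exact h4
  choose nx hn1 hn2 hn3 hn4 using hstep
  have h0 : er (tf []) a ([] : List Bool).length * (5 * 5 ^ 0) ≤ ([] : List Bool).length := by
    simp [er_zero]
  let s : ∀ k, St k := fun k => Nat.rec (motive := fun k => St k) ⟨[], h0⟩ (fun k s => nx k s) k
  have hs : ∀ k, s (k + 1) = nx k (s k) := fun k => rfl
  have hpre : ∀ i j, i ≤ j → (s i).1 <+: (s j).1 := by
    intro i j hij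
    induction j with
    | zero => rw [Nat.le_zero.1 hij]
    | succ j ih =>
      rcases Nat.lt_or_eq_of_le hij with h | rfl
      · refine (ih (Nat.lt_succ_iff.1 h)).trans ?_
        rw [hs]; exact hn1 j (s j)
      · exact List.prefix_rfl
  have hlen : ∀ k, k ≤ (s k).1.length := by
    intro k
    induction k with
    | zero => exact Nat.zero_le _
    | succ k ih =>
      have := hn2 k (s k)
      rw [hs]; omega
  let z : ℕ → Bool := fun j => (s (j + 1)).1.getD j false
  have hz : ∀ k j, j < (s k).1.length → z j = (s k).1.getD j false := by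
    intro k j hj
    have hl : j < (s (j + 1)).1.length := hlen (j + 1)
    show (s (j + 1)).1.getD j false = _
    rw [List.getD_eq_getElem?_getD, List.getD_eq_getElem?_getD, List.getElem?_eq_getElem hl,
      List.getElem?_eq_getElem hj]
    rw [Option.getD_some, Option.getD_some]
    rcases le_total k (j + 1) with h | h
    · exact ((hpre _ _ h).getElem hj).symm
    · exact ((hpre _ _ h).getElem hl)
  have hzs : ∀ k, (s k).1 = bseg z (s k).1.length := fun k => eq_bseg (hz k)
  have herz : ∀ k m, m ≤ (s k).1.length → er (fun j => bit (z j)) a m = er (tf (s k).1) a m := by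
    intro k m hm
    refine er_congr (fun j hj => ?_) (fun _ _ => rfl)
    show bit (z j) = bit _
    rw [hz k j (by omega)]
  -- closeness
  have hclose : ∀ k m, (s k).1.length ≤ m → er (fun j => bit (z j)) a m * 5 ^ k ≤ m := by
    intro k m hm
    have key : ∀ j, k ≤ j → ∀ m, (s k).1.length ≤ m → m ≤ (s j).1.length →
        er (fun j => bit (z j)) a m * 5 ^ k ≤ m := by
      intro j hkj
      induction j with
      | zero =>
        intro m h1 h2
        have hk0 : k = 0 := Nat.le_zero.1 hkj
        subst hk0
        have hm' : m = (s 0).1.length := le_antisymm h2 h1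
        have : (s 0).1.length = 0 := rfl
        rw [hm', this]
        simp [er_zero]
      | succ j ih =>
        intro m h1 h2
        rcases Nat.lt_or_eq_of_le hkj with h | rfl
        · by_cases h3 : m ≤ (s j).1.length
          · exact ih (Nat.lt_succ_iff.1 h) m h1 h3
          · push Not at h3
            have h4 := hn3 j (s j) m h3.le (by rw [← hs]; exact h2)
            rw [← hs] at h4
            rw [herz (j + 1) m h2]
            have h5 : 5 ^ k ≤ 5 ^ j := Nat.pow_le_pow_right (by norm_num) (Nat.lt_succ_iff.1 h)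
            exact le_trans (Nat.mul_le_mul_left _ h5) h4
        · have hm' : m = (s (j + 1)).1.length := le_antisymm h2 h1
          have h3 := (s (j + 1)).2
          rw [herz (j + 1) m h2, hm']
          have : er (tf (s (j + 1)).1) a (s (j + 1)).1.length * 5 ^ (j + 1) ≤
            er (tf (s (j + 1)).1) a (s (j + 1)).1.length * (5 * 5 ^ (j + 1)) :=
            Nat.mul_le_mul_left _ (by omega)
          exact le_trans this h3
    exact key (max k m) (le_max_left _ _) m hm (le_trans (le_max_right k m) (hlen _))
  refine ⟨z, ?_, fun N => ?_⟩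
  · intro i0 hTR
    obtain ⟨ev, hev, hmono, hcor⟩ := use_principle _ _ hTR
    obtain ⟨k0, hk0⟩ := hen ev hev
    obtain ⟨k, hk1, hk⟩ : ∃ k : ℕ, k.unpair.1 = i0 ∧ en k.unpair.2 = ev :=
      ⟨Nat.pair i0 k0, by simp, by simpa using hk0⟩
    rcases hn4 k (s k) (hk ▸ hev) (hk ▸ hmono) with hw | ⟨h1, i, hi⟩
    · rw [← hs] at hw
      obtain ⟨i, y, h2, h3⟩ := hw
      rw [hk, hzs (k + 1), bseg_map] at h2
      rw [hk1] at h3
      have h4 : y ∈ (Part.some (c i0 i) : Part ℕ) := (hcor i y).2 ⟨_, h2⟩
      exact h3 (Part.mem_some_iff.1 h4)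
    · obtain ⟨n, hn⟩ := (hcor i (c i0 i)).1 (Part.mem_some _)
      have h2 := hi (bseg z (max n (s k).1.length)) (by
          conv_lhs => rw [hzs k]
          exact bseg_prefix z (le_max_right _ _)) (by
        intro m h3 h4
        rw [bseg_length] at h4
        have e1 : er (tf (bseg z (max n (s k).1.length))) a m = er (fun j => bit (z j)) a m :=
          er_congr (fun j hj => tf_bseg z (by omega)) (fun _ _ => rfl)
        rw [e1]
        by_cases h5 : m ≤ (s (k + 1)).1.length
        · rw [herz (k + 1) m h5]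
          have h6 := h1 m h3 (by rw [← hs]; exact h5)
          rw [← hs] at h6
          exact h6
        · push Not at h5
          have h6 := hclose (k + 1) m h5.le
          have : 5 * 5 ^ k = 5 ^ (k + 1) := by ring
          rw [this]; exact h6)
      rw [hk, bseg_map] at h2
      have h3 := hmono _ _ _ _ (pre_prefix (fun j => bit (z j)) (le_max_left n (s k).1.length)) hn
      rw [h2] at h3
      exact absurd h3 (by simp)
  · obtain ⟨k, hk⟩ : ∃ k, N ≤ 5 ^ k := ⟨N, (Nat.lt_pow_self (by norm_num)).le⟩
    refine ⟨(s k).1.length, fun m hm => ?_⟩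
    exact le_trans (Nat.mul_le_mul_left _ hk) (hclose k m hm)

end Pool.Agent.Y355.CO
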